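import Pool.Agent.P8H8.SV.Stm
import Pool.Agent.Helper202.Univ

/-!
# Project SV (MP_83fd13_an): the boundary curve, its normal, and integration by parts
-/

set_option autoImplicit false

open MeasureTheory Set Filter Metric
open scoped Topology ContDiff ComplexConjugate

namespace Pool.Agent.P8H76.SV

open Pool.Agent.P8H8.SV

variable {φ : ℂ → ℂ} {r : ℝ}

lemma exp_mem (h : Dom φ r) (t : ℝ) : Complex.exp (t * Complex.I) ∈ ball (0 : ℂ) r := by
  rw [mem_ball_zero_iff, Complex.norm_exp_ofReal_mul_I]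
  exact h.hr

lemma N_ne (h : Dom φ r) (t : ℝ) : N φ t ≠ 0 :=
  mul_ne_zero (Complex.exp_ne_zero _)
    (Pool.Agent.Helper202.Univ.deriv_ne_zero isOpen_ball h.hol h.inj (exp_mem h t))

lemma sig_pos (h : Dom φ r) (t : ℝ) : 0 < ‖N φ t‖ := norm_pos_iff.2 (N_ne h t)

lemma hasDerivAt_gamma (h : Dom φ r) (t : ℝ) : HasDerivAt (γ φ) (Complex.I * N φ t) t := by
  have h1 : HasDerivAt φ (deriv φ (Complex.exp (t * Complex.I))) (Complex.exp ((t : ℂ) * Complex.I)) :=
    (h.hol.differentiableAt (isOpen_ball.mem_nhds (exp_mem h t))).hasDerivAt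
  have h2 : HasDerivAt (fun z : ℂ => Complex.exp (z * Complex.I)) (Complex.exp ((t : ℂ) * Complex.I) * Complex.I)
      (t : ℂ) := by
    have := ((hasDerivAt_id (t : ℂ)).mul_const Complex.I).cexp
    simpa using this
  have h3 := (h1.comp (t : ℂ) h2).comp_ofReal
  refine h3.congr_deriv ?_
  unfold N
  ring

lemma continuous_gamma (h : Dom φ r) : Continuous (γ φ) :=
  continuous_iff_continuousAt.2 fun t => (hasDerivAt_gamma h t).continuousAt

lemma continuous_exp_I : Continuous fun t : ℝ => Complex.exp (t * Complex.I) := by fun_prop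

lemma continuous_N (h : Dom φ r) : Continuous (N φ) := by
  have h1 : ContinuousOn (deriv φ) (ball 0 r) := (h.hol.deriv isOpen_ball).continuousOn
  exact continuous_exp_I.mul (h1.comp_continuous continuous_exp_I (exp_mem h))

lemma exp_per (t : ℝ) : Complex.exp (((t + 2 * Real.pi : ℝ) : ℂ) * Complex.I) = Complex.exp (t * Complex.I) := by
  rw [Complex.exp_eq_exp_iff_exists_int]
  exact ⟨1, by push_cast; ring⟩

lemma gamma_per (t : ℝ) : γ φ (t + 2 * Real.pi) = γ φ t := by
  unfold γ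
  rw [exp_per]

lemma N_per (t : ℝ) : N φ (t + 2 * Real.pi) = N φ t := by
  unfold N
  rw [exp_per]

lemma N_re {Θ : ℝ → ℝ} (hΘ : Ang φ Θ) (t : ℝ) : (N φ t).re = ‖N φ t‖ * Real.cos (Θ t) := by
  have h1 := congrArg Complex.re (hΘ.eq t)
  rw [Complex.re_ofReal_mul, Complex.exp_ofReal_mul_I_re] at h1
  exact h1

lemma N_im {Θ : ℝ → ℝ} (hΘ : Ang φ Θ) (t : ℝ) : (N φ t).im = ‖N φ t‖ * Real.sin (Θ t) := by
  have h1 := congrArg Complex.im (hΘ.eq t)
  rw [Complex.im_ofReal_mul, Complex.exp_ofReal_mul_I_im] at h1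
  exact h1

lemma ip_eq (z w : ℂ) : ip z w = z.re * w.re + z.im * w.im := by
  unfold ip
  rw [Complex.mul_re, Complex.conj_re, Complex.conj_im]
  ring

/-- half of the derivative of the squared distance from `a` -/
noncomputable def dh (φ : ℂ → ℂ) (a : ℂ) (t : ℝ) : ℝ := ip (γ φ t - a) (Complex.I * N φ t)

lemma dh_eq (a : ℂ) (t : ℝ) : dh φ a t = -((γ φ t - a).re * (N φ t).im) + (γ φ t - a).im * (N φ t).re := by
  unfold dh
  rw [ip_eq]
  simp

lemma continuous_dh (h : Dom φ r) (a : ℂ) : Continuous (dh φ a) := by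
  have e : dh φ a = fun t => -((γ φ t - a).re * (N φ t).im) + (γ φ t - a).im * (N φ t).re := funext (dh_eq a)
  rw [e]
  have h1 := (continuous_gamma h).sub (continuous_const (y := a))
  have h2 := continuous_N h
  exact ((Complex.continuous_re.comp h1).mul (Complex.continuous_im.comp h2)).neg.add
    ((Complex.continuous_im.comp h1).mul (Complex.continuous_re.comp h2))

lemma hasDerivAt_dist (h : Dom φ r) (a : ℂ) (t : ℝ) :
    HasDerivAt (fun t => ‖γ φ t - a‖ ^ 2) (2 * dh φ a t) t := by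
  have h1 := ((hasDerivAt_gamma h t).sub_const a)
  have hre : HasDerivAt (fun t => (γ φ t - a).re) (Complex.I * N φ t).re t :=
    Complex.reCLM.hasFDerivAt.comp_hasDerivAt t h1
  have him : HasDerivAt (fun t => (γ φ t - a).im) (Complex.I * N φ t).im t :=
    Complex.imCLM.hasFDerivAt.comp_hasDerivAt t h1
  have h2 := (hre.pow 2).add (him.pow 2)
  have e : (fun t => ‖γ φ t - a‖ ^ 2) = (fun t => (γ φ t - a).re ^ 2) + fun t => (γ φ t - a).im ^ 2 := by
    funext s
    rw [Pi.add_apply, Complex.sq_norm, Complex.normSq_apply]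
    ring
  rw [e]
  refine h2.congr_deriv ?_
  rw [dh_eq]
  simp
  ring

lemma cos_per {Θ : ℝ → ℝ} (hp : ∀ t, Θ (t + 2 * Real.pi) = Θ t + 2 * Real.pi) (k : ℕ) (t : ℝ) :
    Real.cos (k * Θ (t + 2 * Real.pi)) = Real.cos (k * Θ t) := by
  rw [hp, mul_add]
  exact Real.cos_add_nat_mul_two_pi _ k

lemma sin_per {Θ : ℝ → ℝ} (hp : ∀ t, Θ (t + 2 * Real.pi) = Θ t + 2 * Real.pi) (k : ℕ) (t : ℝ) :
    Real.sin (k * Θ (t + 2 * Real.pi)) = Real.sin (k * Θ t) := by
  rw [hp, mul_add]
  exact Real.sin_add_nat_mul_two_pi _ k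

section ibp

variable {u u' Θ : ℝ → ℝ}

lemma ibp_cos (hu : ∀ t, HasDerivAt u (u' t) t) (hu' : Continuous u') (hper : ∀ t, u (t + 2 * Real.pi) = u t)
    (hΘ : ContDiff ℝ 1 Θ) (hp : ∀ t, Θ (t + 2 * Real.pi) = Θ t + 2 * Real.pi) (k : ℕ) :
    k * ∫ t in (0 : ℝ)..2 * Real.pi, u t * Real.cos (k * Θ t) * deriv Θ t =
      -∫ t in (0 : ℝ)..2 * Real.pi, u' t * Real.sin (k * Θ t) := by
  have hc : Continuous u := continuous_iff_continuousAt.2 fun t => (hu t).continuousAt
  have hΘc : Continuous Θ := hΘ.continuous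
  have hΘ' : Continuous (deriv Θ) := hΘ.continuous_deriv le_rfl
  have hd : ∀ t, HasDerivAt (fun t => u t * Real.sin (k * Θ t))
      (u' t * Real.sin (k * Θ t) + k * (u t * Real.cos (k * Θ t) * deriv Θ t)) t := by
    intro t
    have h1 : HasDerivAt Θ (deriv Θ t) t := (hΘ.differentiable one_ne_zero t).hasDerivAt
    have h2 := (hu t).mul ((h1.const_mul (k : ℝ)).sin)
    refine h2.congr_deriv ?_
    ring
  have hint : Continuous fun t => u' t * Real.sin (k * Θ t) + k * (u t * Real.cos (k * Θ t) * deriv Θ t) := by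
    fun_prop
  have h3 := intervalIntegral.integral_eq_sub_of_hasDerivAt (a := 0) (b := 2 * Real.pi) (fun t _ => hd t)
    (hint.intervalIntegrable _ _)
  have h4 : u (2 * Real.pi) * Real.sin (k * Θ (2 * Real.pi)) - u 0 * Real.sin (k * Θ 0) = 0 := by
    have e1 := hper 0
    have e2 := sin_per hp k 0
    rw [zero_add] at e1 e2
    rw [e1, e2, sub_self]
  rw [h4, intervalIntegral.integral_add (by exact (by fun_prop : Continuous _).intervalIntegrable _ _)
    (by exact (by fun_prop : Continuous _).intervalIntegrable _ _), intervalIntegral.integral_const_mul] at h3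
  linarith

lemma ibp_sin (hu : ∀ t, HasDerivAt u (u' t) t) (hu' : Continuous u') (hper : ∀ t, u (t + 2 * Real.pi) = u t)
    (hΘ : ContDiff ℝ 1 Θ) (hp : ∀ t, Θ (t + 2 * Real.pi) = Θ t + 2 * Real.pi) (k : ℕ) :
    k * ∫ t in (0 : ℝ)..2 * Real.pi, u t * Real.sin (k * Θ t) * deriv Θ t =
      ∫ t in (0 : ℝ)..2 * Real.pi, u' t * Real.cos (k * Θ t) := by
  have hc : Continuous u := continuous_iff_continuousAt.2 fun t => (hu t).continuousAt
  have hΘc : Continuous Θ := hΘ.continuous
  have hΘ' : Continuous (deriv Θ) := hΘ.continuous_deriv le_rfl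
  have hd : ∀ t, HasDerivAt (fun t => u t * Real.cos (k * Θ t))
      (u' t * Real.cos (k * Θ t) - k * (u t * Real.sin (k * Θ t) * deriv Θ t)) t := by
    intro t
    have h1 : HasDerivAt Θ (deriv Θ t) t := (hΘ.differentiable one_ne_zero t).hasDerivAt
    have h2 := (hu t).mul ((h1.const_mul (k : ℝ)).cos)
    refine h2.congr_deriv ?_
    ring
  have hint : Continuous fun t => u' t * Real.cos (k * Θ t) - k * (u t * Real.sin (k * Θ t) * deriv Θ t) := by
    fun_prop
  have h3 := intervalIntegral.integral_eq_sub_of_hasDerivAt (a := 0) (b := 2 * Real.pi) (fun t _ => hd t)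
    (hint.intervalIntegrable _ _)
  have h4 : u (2 * Real.pi) * Real.cos (k * Θ (2 * Real.pi)) - u 0 * Real.cos (k * Θ 0) = 0 := by
    have e1 := hper 0
    have e2 := cos_per hp k 0
    rw [zero_add] at e1 e2
    rw [e1, e2, sub_self]
  rw [h4, intervalIntegral.integral_sub (by exact (by fun_prop : Continuous _).intervalIntegrable _ _)
    (by exact (by fun_prop : Continuous _).intervalIntegrable _ _), intervalIntegral.integral_const_mul] at h3
  linarith

end ibp

end Pool.Agent.P8H76.SV
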