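import Pool.Agent.P8H76.SV.Cur

/-!
# Project SV (MP_83fd13_an): packages ODD and SUPP
-/

set_option autoImplicit false

open MeasureTheory Set Filter Metric
open scoped Topology ContDiff ComplexConjugate

namespace Pool.Agent.P8H76.SV

open Pool.Agent.P8H8.SV

variable {φ : ℂ → ℂ} {r : ℝ}

lemma exp_add_pi (t : ℝ) : Complex.exp (((t + Real.pi : ℝ) : ℂ) * Complex.I) = -Complex.exp (t * Complex.I) := by
  rw [Complex.ofReal_add, add_mul, Complex.exp_add, Complex.exp_pi_mul_I]
  ring

lemma odd_int {F : ℝ → ℝ} (hc : Continuous F) (h : ∀ t, F (t + Real.pi) = -F t) :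
    ∫ t in (0 : ℝ)..2 * Real.pi, F t = 0 := by
  have h1 := intervalIntegral.integral_add_adjacent_intervals (hc.intervalIntegrable (μ := volume) 0 Real.pi)
    (hc.intervalIntegrable (μ := volume) Real.pi (2 * Real.pi))
  have h2 := intervalIntegral.integral_comp_add_right (a := 0) (b := Real.pi) F Real.pi
  rw [intervalIntegral.integral_congr fun t _ => h t, intervalIntegral.integral_neg, zero_add,
    ← two_mul] at h2
  linarith

/-- Package ODD -/
theorem t_ODD : S_ODD := by
  intro φ r Θ h hΘ hodd k hk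
  have hd1 : ∀ w ∈ ball (0 : ℂ) r, deriv φ (-w) = deriv φ w := by
    intro w hw
    have hev : (fun x => φ (-x)) =ᶠ[𝓝 w] fun x => -φ x := by
      filter_upwards [isOpen_ball.mem_nhds hw] with x hx using hodd x hx
    have h1 := hev.deriv_eq
    rw [deriv_comp_neg, deriv.fun_neg] at h1
    exact neg_injective h1
  have hd2 : ∀ w ∈ ball (0 : ℂ) r, deriv (deriv φ) (-w) = -deriv (deriv φ) w := by
    intro w hw
    have hev : (fun x => deriv φ (-x)) =ᶠ[𝓝 w] deriv φ := by
      filter_upwards [isOpen_ball.mem_nhds hw] with x hx using hd1 x hx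
    have h1 := hev.deriv_eq
    rw [deriv_comp_neg] at h1
    rw [← h1, neg_neg]
  have hγ : ∀ t, γ φ (t + Real.pi) = -γ φ t := by
    intro t
    unfold γ
    rw [exp_add_pi, hodd _ (exp_mem h t)]
  have hN : ∀ t, N φ (t + Real.pi) = -N φ t := by
    intro t
    unfold N
    rw [exp_add_pi, hd1 _ (exp_mem h t)]
    ring
  have hΘ' : ∀ t, deriv Θ (t + Real.pi) = deriv Θ t := by
    intro t
    rw [hΘ.der, hΘ.der, exp_add_pi, hd1 _ (exp_mem h t), hd2 _ (exp_mem h t)]
    congr 2
    ring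
  have hang : ∀ t, ∃ m : ℤ, Θ (t + Real.pi) = Θ t + Real.pi + m * (2 * Real.pi) := by
    intro t
    have e1 := hΘ.eq (t + Real.pi)
    rw [hN, norm_neg] at e1
    have e2 := hΘ.eq t
    have e3 : Complex.exp (Θ (t + Real.pi) * Complex.I) = Complex.exp (((Θ t + Real.pi : ℝ) : ℂ) * Complex.I) := by
      rw [exp_add_pi]
      have hσ : ((‖N φ t‖ : ℝ) : ℂ) ≠ 0 := by exact_mod_cast (sig_pos h t).ne'
      refine mul_left_cancel₀ hσ ?_
      rw [← e1, mul_neg, ← e2]
    obtain ⟨m, hm⟩ := Complex.exp_eq_exp_iff_exists_int.1 e3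
    refine ⟨m, ?_⟩
    have h4 : ((Θ (t + Real.pi) : ℝ) : ℂ) = ((Θ t + Real.pi + m * (2 * Real.pi) : ℝ) : ℂ) := by
      refine mul_right_cancel₀ Complex.I_ne_zero ?_
      rw [hm]
      push_cast
      ring
    exact_mod_cast h4
  have hcos : ∀ t, Real.cos (k * Θ (t + Real.pi)) = -Real.cos (k * Θ t) := by
    intro t
    obtain ⟨m, hm⟩ := hang t
    have e : (k : ℝ) * Θ (t + Real.pi) = k * Θ t + k * Real.pi + ((k * m : ℤ) : ℝ) * (2 * Real.pi) := by
      rw [hm]; push_cast; ring
    rw [e, Real.cos_add_int_mul_two_pi, Real.cos_add_nat_mul_pi, hk.neg_one_pow]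
    ring
  have hsin : ∀ t, Real.sin (k * Θ (t + Real.pi)) = -Real.sin (k * Θ t) := by
    intro t
    obtain ⟨m, hm⟩ := hang t
    have e : (k : ℝ) * Θ (t + Real.pi) = k * Θ t + k * Real.pi + ((k * m : ℤ) : ℝ) * (2 * Real.pi) := by
      rw [hm]; push_cast; ring
    rw [e, Real.sin_add_int_mul_two_pi, Real.sin_add_nat_mul_pi, hk.neg_one_pow]
    ring
  have hcγ := continuous_gamma h
  have hcΘ : Continuous Θ := hΘ.sm.continuous
  have hcΘ' : Continuous (deriv Θ) := hΘ.sm.continuous_deriv (by simp)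
  constructor
  · refine odd_int (by fun_prop) fun t => ?_
    rw [hγ, hcos, hΘ', norm_neg]
    ring
  · refine odd_int (by fun_prop) fun t => ?_
    rw [hγ, hsin, hΘ', norm_neg]
    ring

lemma zre (a : ℂ) (Θ : ℝ → ℝ) (s t : ℝ) : ((γ φ s - a) * Complex.exp (-(Θ t * Complex.I))).re =
    (γ φ s - a).re * Real.cos (Θ t) + (γ φ s - a).im * Real.sin (Θ t) := by
  have e : -((Θ t : ℂ) * Complex.I) = ((-Θ t : ℝ) : ℂ) * Complex.I := by push_cast; ring
  rw [e, Complex.mul_re, Complex.exp_ofReal_mul_I_re, Complex.exp_ofReal_mul_I_im, Real.cos_neg, Real.sin_neg]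
  ring

/-- Package SUPP -/
theorem t_SUPP : S_SUPP := by
  classical
  intro φ r Θ a R n h hΘ hsup hR hn hA
  have hpi := Real.pi_pos
  obtain ⟨p, hp1, hp2, hp3⟩ := hA
  set f : ℝ → ℝ := fun t => ‖γ φ t - a‖ ^ 2 with hf
  have hfd : ∀ t, HasDerivAt f (2 * dh φ a t) t := fun t => hasDerivAt_dist h a t
  have hfc : Continuous f := continuous_iff_continuousAt.2 fun t => (hfd t).continuousAt
  have hfp : ∀ t, f (t + 2 * Real.pi) = f t := fun t => by simp only [hf, gamma_per]
  have hs : ∀ i < 2 * n, 0 < (-1) ^ i * (f (p i) - R ^ 2) := by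
    intro i hi
    have h1 := hp3 i hi
    have h2 : 0 < ‖γ φ (p i) - a‖ + R := by positivity
    have h3 := mul_pos h1 h2
    have h4 : (-1) ^ i * (f (p i) - R ^ 2) = (-1) ^ i * (‖γ φ (p i) - a‖ - R) * (‖γ φ (p i) - a‖ + R) := by
      simp only [hf]; ring
    rwa [h4]
  have hs' : ∀ i ≤ 2 * n, 0 < (-1) ^ i * (f (p i) - R ^ 2) := by
    intro i hi
    rcases hi.lt_or_eq with h1 | h1
    · exact hs i h1
    · rw [h1, hp2, hfp, pow_mul]
      have := hs 0 (by omega)
      simpa using this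
  -- crossing points
  have hz : ∀ i < 2 * n, ∃ z ∈ Ioo (p i) (p (i + 1)), f z = R ^ 2 := by
    intro i hi
    have g1 := hs' i hi.le
    have g2 := hs' (i + 1) (by omega)
    have hc : ContinuousOn (fun t => (-1) ^ i * (f t - R ^ 2)) (Icc (p i) (p (i + 1))) := by
      exact (continuous_const.mul (hfc.sub continuous_const)).continuousOn
    obtain ⟨z, hz, hz0⟩ := intermediate_value_Ioo' (hp1 i hi).le hc
      (show (0 : ℝ) ∈ Ioo ((-1) ^ i * (f (p (i + 1)) - R ^ 2)) ((-1) ^ i * (f (p i) - R ^ 2)) from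
        ⟨by rw [pow_succ] at g2; linarith, g1⟩)
    refine ⟨z, hz, ?_⟩
    have h5 : ((-1 : ℝ) ^ i) ≠ 0 := pow_ne_zero _ (by norm_num)
    rcases mul_eq_zero.1 hz0 with h6 | h6
    · exact absurd h6 h5
    · linarith
  choose! z hz1 hz2 using hz
  let l : ℕ → ℝ := fun i => if i = 0 then z (2 * n - 1) - 2 * Real.pi else z (i - 1)
  have hl1 : ∀ i < 2 * n, l i < p i := by
    intro i hi
    simp only [l]
    split_ifs with h0
    · have h1 := (hz1 (2 * n - 1) (by omega)).2
      rw [show 2 * n - 1 + 1 = 2 * n by omega, hp2] at h1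
      rw [h0]
      linarith
    · have h1 := (hz1 (i - 1) (by omega)).2
      rwa [show i - 1 + 1 = i by omega] at h1
  have hl2 : ∀ i < 2 * n, f (l i) = R ^ 2 := by
    intro i hi
    simp only [l]
    split_ifs with h0
    · rw [← hfp, sub_add_cancel]
      exact hz2 _ (by omega)
    · exact hz2 _ (by omega)
  -- extremal points
  have hq : ∀ i < 2 * n, ∃ q ∈ Ioo (l i) (z i), dh φ a q = 0 ∧ 0 < (-1) ^ i * (f q - R ^ 2) := by
    intro i hi
    have hlz : l i < z i := (hl1 i hi).trans (hz1 i hi).1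
    have hgc : Continuous fun t => (-1) ^ i * (f t - R ^ 2) := continuous_const.mul (hfc.sub continuous_const)
    obtain ⟨q, hqm, hqmax⟩ := isCompact_Icc.exists_isMaxOn (nonempty_Icc.2 hlz.le) hgc.continuousOn
    have hpos : 0 < (-1) ^ i * (f q - R ^ 2) :=
      lt_of_lt_of_le (hs i hi) (hqmax ⟨(hl1 i hi).le, (hz1 i hi).1.le⟩)
    have hne1 : q ≠ l i := by
      rintro rfl
      rw [hl2 i hi] at hpos
      simp at hpos
    have hne2 : q ≠ z i := by
      rintro rfl
      rw [hz2 i hi] at hpos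
      simp at hpos
    have hqI : q ∈ Ioo (l i) (z i) := ⟨lt_of_le_of_ne hqm.1 (Ne.symm hne1), lt_of_le_of_ne hqm.2 hne2⟩
    have hloc : IsLocalMax (fun t => (-1) ^ i * (f t - R ^ 2)) q :=
      (hqmax.isLocalMax (Icc_mem_nhds hqI.1 hqI.2))
    have hder : HasDerivAt (fun t => (-1) ^ i * (f t - R ^ 2)) ((-1) ^ i * (2 * dh φ a q)) q :=
      ((hfd q).sub_const (R ^ 2)).const_mul _
    have h0 := hloc.hasDerivAt_eq_zero hder
    have h5 : ((-1 : ℝ) ^ i) ≠ 0 := pow_ne_zero _ (by norm_num)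
    refine ⟨q, hqI, ?_, hpos⟩
    rcases mul_eq_zero.1 h0 with h6 | h6
    · exact absurd h6 h5
    · linarith
  choose! q hq1 hq2 hq3 using hq
  -- the support function at the extremal points
  set H : ℝ → ℝ := fun t => ((γ φ t - a) * Complex.exp (-(Θ t * Complex.I))).re - R with hH
  have hval : ∀ i < 2 * n, 0 < (-1) ^ i * H (q i) := by
    intro i hi
    set t := q i with ht
    set x := (γ φ t - a).re * Real.cos (Θ t) + (γ φ t - a).im * Real.sin (Θ t) with hx
    have hx0 : H t = x - R := by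
      simp only [hH]
      rw [zre]
    -- the other component vanishes
    have hy : -((γ φ t - a).re * Real.sin (Θ t)) + (γ φ t - a).im * Real.cos (Θ t) = 0 := by
      have h1 := hq2 i hi
      rw [← ht, dh_eq, N_re hΘ, N_im hΘ] at h1
      have h2 : ‖N φ t‖ * (-((γ φ t - a).re * Real.sin (Θ t)) + (γ φ t - a).im * Real.cos (Θ t)) = 0 := by
        rw [← h1]; ring
      exact (mul_eq_zero.1 h2).resolve_left (sig_pos h t).ne'
    have hfx : f t = x ^ 2 := by
      have h1 : f t = (γ φ t - a).re ^ 2 + (γ φ t - a).im ^ 2 := by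
        simp only [hf]
        rw [Complex.sq_norm, Complex.normSq_apply]; ring
      have h2 := Real.sin_sq_add_cos_sq (Θ t)
      have h3 : x ^ 2 + (-((γ φ t - a).re * Real.sin (Θ t)) + (γ φ t - a).im * Real.cos (Θ t)) ^ 2 =
          ((γ φ t - a).re ^ 2 + (γ φ t - a).im ^ 2) * (Real.sin (Θ t) ^ 2 + Real.cos (Θ t) ^ 2) := by
        rw [hx]; ring
      rw [hy, h2] at h3
      rw [h1]
      linarith
    have hxR : 0 < x + R := by
      by_contra hcon
      push Not at hcon
      have h1 := hsup (p 1) t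
      rw [ip_eq, N_re hΘ, N_im hΘ] at h1
      have h2 : ‖N φ t‖ * (((γ φ (p 1) - a).re * Real.cos (Θ t) + (γ φ (p 1) - a).im * Real.sin (Θ t)) - x) ≤ 0 := by
        refine le_trans (le_of_eq ?_) h1
        rw [hx]
        simp only [Complex.sub_re, Complex.sub_im]
        ring
      have h3 : ((γ φ (p 1) - a).re * Real.cos (Θ t) + (γ φ (p 1) - a).im * Real.sin (Θ t)) - x ≤ 0 := by
        by_contra h4
        push Not at h4
        exact absurd h2 (not_le.2 (mul_pos (sig_pos h t) h4))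
      have h4 : ((γ φ (p 1) - a) * Complex.exp (-(Θ t * Complex.I))).re ≤ -R := by
        rw [zre]
        linarith
      have h5 : ‖(γ φ (p 1) - a) * Complex.exp (-(Θ t * Complex.I))‖ = ‖γ φ (p 1) - a‖ := by
        have e : -((Θ t : ℂ) * Complex.I) = ((-Θ t : ℝ) : ℂ) * Complex.I := by push_cast; ring
        rw [norm_mul, e, Complex.norm_exp_ofReal_mul_I, mul_one]
      have h6 := Complex.abs_re_le_norm ((γ φ (p 1) - a) * Complex.exp (-(Θ t * Complex.I)))
      rw [h5] at h6
      have h7 := (abs_le.1 h6).1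
      have h8 := hp3 1 (by omega)
      rw [pow_one] at h8
      linarith
    have h9 := hq3 i hi
    rw [← ht, hfx] at h9
    rw [hx0]
    have h10 : (-1) ^ i * (x ^ 2 - R ^ 2) = (-1) ^ i * (x - R) * (x + R) := by ring
    rw [h10] at h9
    exact (pos_iff_pos_of_mul_pos h9).2 hxR
  refine ⟨fun i => if i < 2 * n then q i else q 0 + 2 * Real.pi, fun i hi => ?_, ?_, fun i hi => ?_⟩
  · beta_reduce
    rw [if_pos hi]
    split_ifs with h1
    · have h2 := (hq1 i hi).2
      have h3 := (hq1 (i + 1) h1).1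
      have h4 : l (i + 1) = z i := by simp [l]
      rw [h4] at h3
      exact h2.trans h3
    · have h2 := (hq1 i hi).2
      have h3 := (hq1 0 (by omega)).1
      have h4 : l 0 = z (2 * n - 1) - 2 * Real.pi := by simp [l]
      have h5 : i = 2 * n - 1 := by omega
      rw [h4] at h3
      rw [h5] at h2 ⊢
      linarith
  · beta_reduce
    rw [if_neg (by omega), if_pos (by omega)]
  · beta_reduce
    rw [if_pos hi]
    exact hval i hi

end Pool.Agent.P8H76.SV
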