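import Pool.Agent.P8H76.SV.Cur

/-!
# Project SV (MP_83fd13_an): packages SECOND and CENTRE
-/

set_option autoImplicit false

open MeasureTheory Set Filter Metric
open scoped Topology ContDiff ComplexConjugate

namespace Pool.Agent.P8H76.SV

open Pool.Agent.P8H8.SV

variable {φ : ℂ → ℂ} {r : ℝ}

lemma ang_c1 {Θ : ℝ → ℝ} (hΘ : Ang φ Θ) : ContDiff ℝ 1 Θ := hΘ.sm.of_le (by exact_mod_cast le_top)

lemma dist_per (a : ℂ) (t : ℝ) : ‖γ φ (t + 2 * Real.pi) - a‖ ^ 2 = ‖γ φ t - a‖ ^ 2 := by
  rw [gamma_per]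

/-- the harmonics of the squared distance, after integration by parts -/
lemma harm (h : Dom φ r) {Θ : ℝ → ℝ} (hΘ : Ang φ Θ) (a : ℂ) (k : ℕ) :
    (k * ∫ t in (0 : ℝ)..2 * Real.pi, ‖γ φ t - a‖ ^ 2 * Real.cos (k * Θ t) * deriv Θ t =
      -∫ t in (0 : ℝ)..2 * Real.pi, 2 * dh φ a t * Real.sin (k * Θ t)) ∧
    (k * ∫ t in (0 : ℝ)..2 * Real.pi, ‖γ φ t - a‖ ^ 2 * Real.sin (k * Θ t) * deriv Θ t =
      ∫ t in (0 : ℝ)..2 * Real.pi, 2 * dh φ a t * Real.cos (k * Θ t)) :=
  ⟨ibp_cos (fun t => hasDerivAt_dist h a t) (continuous_const.mul (continuous_dh h a)) (dist_per a) (ang_c1 hΘ) hΘ.per k,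
    ibp_sin (fun t => hasDerivAt_dist h a t) (continuous_const.mul (continuous_dh h a)) (dist_per a) (ang_c1 hΘ) hΘ.per k⟩

/-- Package SECOND -/
theorem t_SECOND : S_SECOND := by
  intro φ r Θ h hΘ hc a
  have hσ : ∀ t, ‖N φ t‖ ≠ 0 := fun t => (sig_pos h t).ne'
  -- the three cubic identities
  have key : ∀ a1 a2 : ℂ, ∫ t in (0 : ℝ)..2 * Real.pi,
      (ip a1 (N φ t) * ip a2 (N φ t) * (-dh φ a t)) / ‖N φ t‖ ^ 2 = 0 := by
    intro a1 a2
    have h1 := hc ![a1, a2, -Complex.I * a] ![0, 0, 1]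
    refine Eq.trans ?_ h1
    refine intervalIntegral.integral_congr fun t _ => ?_
    simp only [Fin.prod_univ_three, Matrix.cons_val_zero, Matrix.cons_val_one, Matrix.cons_val]
    have e1 : kf a1 0 (γ φ t) = a1 := by simp [kf]
    have e2 : kf a2 0 (γ φ t) = a2 := by simp [kf]
    have e3 : ip (kf (-Complex.I * a) 1 (γ φ t)) (N φ t) = -dh φ a t := by
      rw [dh_eq, ip_eq]
      simp [kf]
      ring
    rw [e1, e2, e3]
  have hcΘ : Continuous Θ := hΘ.sm.continuous
  have hdh := continuous_dh h a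
  have k12 : ∫ t in (0 : ℝ)..2 * Real.pi, dh φ a t * (Real.cos (Θ t) * Real.sin (Θ t)) = 0 := by
    have h1 := key 1 Complex.I
    have e : ∀ t, (ip 1 (N φ t) * ip Complex.I (N φ t) * (-dh φ a t)) / ‖N φ t‖ ^ 2 =
        (-1) * (dh φ a t * (Real.cos (Θ t) * Real.sin (Θ t))) := by
      intro t
      rw [ip_eq, ip_eq]
      simp only [Complex.one_re, Complex.one_im, Complex.I_re, Complex.I_im, one_mul, zero_mul, add_zero, zero_add]
      rw [N_re hΘ, N_im hΘ]
      field_simp [hσ t]
    rw [intervalIntegral.integral_congr fun t _ => e t, intervalIntegral.integral_const_mul] at h1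
    linarith
  have k11 : ∫ t in (0 : ℝ)..2 * Real.pi, dh φ a t * Real.cos (Θ t) ^ 2 = 0 := by
    have h1 := key 1 1
    have e : ∀ t, (ip 1 (N φ t) * ip 1 (N φ t) * (-dh φ a t)) / ‖N φ t‖ ^ 2 =
        (-1) * (dh φ a t * Real.cos (Θ t) ^ 2) := by
      intro t
      rw [ip_eq]
      simp only [Complex.one_re, Complex.one_im, one_mul, zero_mul, add_zero]
      rw [N_re hΘ]
      field_simp [hσ t]
    rw [intervalIntegral.integral_congr fun t _ => e t, intervalIntegral.integral_const_mul] at h1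
    linarith
  have k22 : ∫ t in (0 : ℝ)..2 * Real.pi, dh φ a t * Real.sin (Θ t) ^ 2 = 0 := by
    have h1 := key Complex.I Complex.I
    have e : ∀ t, (ip Complex.I (N φ t) * ip Complex.I (N φ t) * (-dh φ a t)) / ‖N φ t‖ ^ 2 =
        (-1) * (dh φ a t * Real.sin (Θ t) ^ 2) := by
      intro t
      rw [ip_eq]
      simp only [Complex.I_re, Complex.I_im, one_mul, zero_mul, zero_add]
      rw [N_im hΘ]
      field_simp [hσ t]
    rw [intervalIntegral.integral_congr fun t _ => e t, intervalIntegral.integral_const_mul] at h1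
    linarith
  obtain ⟨h1, h2⟩ := harm h hΘ a 2
  constructor
  · have e : ∫ t in (0 : ℝ)..2 * Real.pi, 2 * dh φ a t * Real.sin ((2 : ℕ) * Θ t) =
        4 * ∫ t in (0 : ℝ)..2 * Real.pi, dh φ a t * (Real.cos (Θ t) * Real.sin (Θ t)) := by
      rw [← intervalIntegral.integral_const_mul]
      refine intervalIntegral.integral_congr fun t _ => ?_
      simp only [Nat.cast_ofNat]
      rw [Real.sin_two_mul]
      ring
    rw [e, k12] at h1
    push_cast at h1
    linarith
  · have e : ∫ t in (0 : ℝ)..2 * Real.pi, 2 * dh φ a t * Real.cos ((2 : ℕ) * Θ t) =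
        2 * ((∫ t in (0 : ℝ)..2 * Real.pi, dh φ a t * Real.cos (Θ t) ^ 2) -
          ∫ t in (0 : ℝ)..2 * Real.pi, dh φ a t * Real.sin (Θ t) ^ 2) := by
      rw [← intervalIntegral.integral_sub (by exact (by fun_prop : Continuous _).intervalIntegrable _ _)
        (by exact (by fun_prop : Continuous _).intervalIntegrable _ _), ← intervalIntegral.integral_const_mul]
      refine intervalIntegral.integral_congr fun t _ => ?_
      simp only [Nat.cast_ofNat]
      rw [Real.cos_two_mul']
      ring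
    rw [e, k11, k22] at h2
    push_cast at h2
    linarith

/-- the quadratic form of `∫ σ sin²`, `∫ σ sin cos`, `∫ σ cos²` is positive definite -/
lemma form_pos (h : Dom φ r) {Θ : ℝ → ℝ} (hΘ : Ang φ Θ) {x y : ℝ} (hxy : x ≠ 0 ∨ y ≠ 0) :
    0 < ∫ t in (0 : ℝ)..2 * Real.pi, ‖N φ t‖ * (x * Real.sin (Θ t) + y * Real.cos (Θ t)) ^ 2 := by
  have hpi := Real.pi_pos
  have hcΘ : Continuous Θ := hΘ.sm.continuous
  have hN := (continuous_N h).norm
  have hcont : Continuous fun t => ‖N φ t‖ * (x * Real.sin (Θ t) + y * Real.cos (Θ t)) ^ 2 := by fun_prop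
  refine intervalIntegral.integral_pos (by positivity) hcont.continuousOn (fun t _ => by positivity) ?_
  by_contra hcon
  push Not at hcon
  -- the form vanishes on the whole period
  have hz : ∀ t ∈ Icc (0 : ℝ) (2 * Real.pi), x * Real.sin (Θ t) + y * Real.cos (Θ t) = 0 := by
    intro t ht
    by_contra hne
    have h1 : 0 < ‖N φ t‖ * (x * Real.sin (Θ t) + y * Real.cos (Θ t)) ^ 2 :=
      mul_pos (sig_pos h t) (by positivity)
    exact absurd (hcon t ht) (not_le.2 h1)
  have hivt : Icc (Θ 0) (Θ (2 * Real.pi)) ⊆ Θ '' Icc 0 (2 * Real.pi) :=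
    intermediate_value_Icc (by positivity) hcΘ.continuousOn
  have hp := hΘ.per 0
  rw [zero_add] at hp
  obtain ⟨t, ht, hte⟩ := hivt (show Θ 0 + Real.pi / 2 ∈ Icc (Θ 0) (Θ (2 * Real.pi)) from
    ⟨by linarith, by rw [hp]; linarith⟩)
  have z1 := hz 0 ⟨le_rfl, by positivity⟩
  have z2 := hz t ht
  rw [hte, Real.sin_add_pi_div_two, Real.cos_add_pi_div_two] at z2
  have z3 := Real.sin_sq_add_cos_sq (Θ 0)
  have z4 : x ^ 2 + y ^ 2 = 0 := by
    have : x ^ 2 + y ^ 2 = (x * Real.sin (Θ 0) + y * Real.cos (Θ 0)) ^ 2 +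
        (x * Real.cos (Θ 0) + y * -Real.sin (Θ 0)) ^ 2 := by
      have : (x * Real.sin (Θ 0) + y * Real.cos (Θ 0)) ^ 2 + (x * Real.cos (Θ 0) + y * -Real.sin (Θ 0)) ^ 2 =
        (x ^ 2 + y ^ 2) * (Real.sin (Θ 0) ^ 2 + Real.cos (Θ 0) ^ 2) := by ring
      rw [this, z3, mul_one]
    rw [this, z1, z2]
    norm_num
  have hx : x = 0 := by nlinarith [sq_nonneg x, sq_nonneg y]
  have hy : y = 0 := by nlinarith [sq_nonneg x, sq_nonneg y]
  rcases hxy with h' | h'
  · exact h' hx
  · exact h' hy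

/-- Package CENTRE -/
theorem t_CENTRE : S_CENTRE := by
  intro φ r Θ h hΘ
  have hcΘ : Continuous Θ := hΘ.sm.continuous
  have hN := (continuous_N h).norm
  set M11 := ∫ t in (0 : ℝ)..2 * Real.pi, ‖N φ t‖ * Real.sin (Θ t) ^ 2 with hM11
  set M12 := ∫ t in (0 : ℝ)..2 * Real.pi, ‖N φ t‖ * (Real.sin (Θ t) * Real.cos (Θ t)) with hM12
  set M22 := ∫ t in (0 : ℝ)..2 * Real.pi, ‖N φ t‖ * Real.cos (Θ t) ^ 2 with hM22
  have hform : ∀ x y : ℝ, (x ≠ 0 ∨ y ≠ 0) → 0 < x ^ 2 * M11 + 2 * x * y * M12 + y ^ 2 * M22 := by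
    intro x y hxy
    have h1 := form_pos h hΘ hxy
    have e : ∫ t in (0 : ℝ)..2 * Real.pi, ‖N φ t‖ * (x * Real.sin (Θ t) + y * Real.cos (Θ t)) ^ 2 =
        x ^ 2 * M11 + 2 * x * y * M12 + y ^ 2 * M22 := by
      rw [hM11, hM12, hM22, ← intervalIntegral.integral_const_mul, ← intervalIntegral.integral_const_mul,
        ← intervalIntegral.integral_const_mul,
        ← intervalIntegral.integral_add (by exact (by fun_prop : Continuous _).intervalIntegrable _ _)
          (by exact (by fun_prop : Continuous _).intervalIntegrable _ _),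
        ← intervalIntegral.integral_add (by exact (by fun_prop : Continuous _).intervalIntegrable _ _)
          (by exact (by fun_prop : Continuous _).intervalIntegrable _ _)]
      refine intervalIntegral.integral_congr fun t _ => ?_
      ring
    rwa [e] at h1
  have h22 : 0 < M22 := by
    have := hform 0 1 (Or.inr one_ne_zero)
    simpa using this
  have hdet : 0 < M11 * M22 - M12 ^ 2 := by
    have h1 := hform M22 (-M12) (Or.inl h22.ne')
    have h2 : M22 ^ 2 * M11 + 2 * M22 * -M12 * M12 + (-M12) ^ 2 * M22 = M22 * (M11 * M22 - M12 ^ 2) := by ring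
    rw [h2] at h1
    exact (pos_iff_pos_of_mul_pos h1).1 h22
  -- the right hand sides
  set P := ∫ t in (0 : ℝ)..2 * Real.pi, dh φ 0 t * Real.sin (Θ t) with hP
  set Q := ∫ t in (0 : ℝ)..2 * Real.pi, dh φ 0 t * Real.cos (Θ t) with hQ
  -- solve the linear system
  set D := M11 * M22 - M12 ^ 2 with hD
  set a1 := (M12 * Q - M22 * P) / D with ha1
  set a2 := (M11 * Q - M12 * P) / D with ha2
  have s1 : P - (-a1 * M11 + a2 * M12) = 0 := by
    rw [ha1, ha2]
    field_simp
    rw [hD]
    ring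
  have s2 : Q - (-a1 * M12 + a2 * M22) = 0 := by
    rw [ha1, ha2]
    field_simp
    rw [hD]
    ring
  set a : ℂ := ⟨a1, a2⟩ with ha
  have hda : ∀ t, dh φ a t = dh φ 0 t - ‖N φ t‖ * (-a1 * Real.sin (Θ t) + a2 * Real.cos (Θ t)) := by
    intro t
    rw [dh_eq, dh_eq, N_re hΘ, N_im hΘ]
    simp [ha]
    ring
  have hd0 := continuous_dh h 0
  obtain ⟨h1, h2⟩ := harm h hΘ a 1
  refine ⟨a, ?_, ?_⟩
  · have e : ∫ t in (0 : ℝ)..2 * Real.pi, 2 * dh φ a t * Real.sin ((1 : ℕ) * Θ t) =
        2 * (P - (-a1 * M11 + a2 * M12)) := by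
      rw [hP, hM11, hM12, ← intervalIntegral.integral_const_mul, ← intervalIntegral.integral_const_mul,
        ← intervalIntegral.integral_add (by exact (by fun_prop : Continuous _).intervalIntegrable _ _)
          (by exact (by fun_prop : Continuous _).intervalIntegrable _ _),
        ← intervalIntegral.integral_sub (by exact (by fun_prop : Continuous _).intervalIntegrable _ _)
          (by exact (by fun_prop : Continuous _).intervalIntegrable _ _), ← intervalIntegral.integral_const_mul]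
      refine intervalIntegral.integral_congr fun t _ => ?_
      simp only [Nat.cast_one, one_mul]
      rw [hda]
      ring
    rw [e, s1] at h1
    simpa using h1
  · have e : ∫ t in (0 : ℝ)..2 * Real.pi, 2 * dh φ a t * Real.cos ((1 : ℕ) * Θ t) =
        2 * (Q - (-a1 * M12 + a2 * M22)) := by
      rw [hQ, hM12, hM22, ← intervalIntegral.integral_const_mul, ← intervalIntegral.integral_const_mul,
        ← intervalIntegral.integral_add (by exact (by fun_prop : Continuous _).intervalIntegrable _ _)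
          (by exact (by fun_prop : Continuous _).intervalIntegrable _ _),
        ← intervalIntegral.integral_sub (by exact (by fun_prop : Continuous _).intervalIntegrable _ _)
          (by exact (by fun_prop : Continuous _).intervalIntegrable _ _), ← intervalIntegral.integral_const_mul]
      refine intervalIntegral.integral_congr fun t _ => ?_
      simp only [Nat.cast_one, one_mul]
      rw [hda]
      ring
    rw [e, s2] at h2
    simpa using h2

end Pool.Agent.P8H76.SV
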